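import Pool.Agent.H85.TT.PinchLem

/-!
The pinched category `PP` of a `Pinch`: morphisms of weights `≥ 0` whose weight zero part is in
`C0`; the functors `P0 : PP ⥤ C0`, `P2 : PP ⥤ C`, `J : C0 ⥤ PP`, all braided monoidal with
identity structure maps.
-/

open CategoryTheory CategoryTheory.Limits MonoidalCategory

namespace Pool.Agent.H75.TT

variable {C : Type} [Category.{0} C] [Preadditive C] [MonoidalCategory C] [SymmetricCategory C]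

namespace TensorSub

/-- The inclusion functor between two tensor subcategories. -/
@[simps]
def ofLE {S S' : TensorSub C} (h : ∀ X Y : C, S.S X Y ≤ S'.S X Y) : S.Cat ⥤ S'.Cat where
  obj X := ⟨X.of⟩
  map f := ⟨f.f, h _ _ f.mem⟩

variable {S S' : TensorSub C} (h : ∀ X Y : C, S.S X Y ≤ S'.S X Y)

instance : (ofLE h).Faithful where
  map_injective {X Y f g} e := by
    have h1 : ((ofLE h).map f).f = ((ofLE h).map g).f := by rw [e]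
    exact hom_ext h1

instance : (ofLE h).Additive where

/-- Core data with identity structure maps. -/
def ofLECore : (ofLE h).CoreMonoidal where
  εIso := Iso.refl _
  μIso _ _ := Iso.refl _
  μIso_hom_natural_left f X := hom_ext (by
    change f.f ▷ X.of ≫ 𝟙 _ = 𝟙 _ ≫ f.f ▷ X.of
    rw [Category.comp_id, Category.id_comp])
  μIso_hom_natural_right X f := hom_ext (by
    change X.of ◁ f.f ≫ 𝟙 _ = 𝟙 _ ≫ X.of ◁ f.f
    rw [Category.comp_id, Category.id_comp])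
  associativity X Y Z := hom_ext (by
    change 𝟙 (X.of ⊗ Y.of) ▷ Z.of ≫ 𝟙 _ ≫ (α_ X.of Y.of Z.of).hom
      = (α_ X.of Y.of Z.of).hom ≫ X.of ◁ 𝟙 (Y.of ⊗ Z.of) ≫ 𝟙 _
    simp)
  left_unitality X := hom_ext (by
    change (λ_ X.of).hom = 𝟙 (𝟙_ C) ▷ X.of ≫ 𝟙 _ ≫ (λ_ X.of).hom
    simp)
  right_unitality X := hom_ext (by
    change (ρ_ X.of).hom = X.of ◁ 𝟙 (𝟙_ C) ≫ 𝟙 _ ≫ (ρ_ X.of).hom
    simp)

instance : (ofLE h).Monoidal := (ofLECore h).toMonoidal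

instance : (ofLE h).Braided where
  braided X Y := hom_ext (by
    change 𝟙 (X.of ⊗ Y.of) ≫ (β_ X.of Y.of).hom = (β_ X.of Y.of).hom ≫ 𝟙 (Y.of ⊗ X.of)
    rw [Category.comp_id, Category.id_comp])

end TensorSub

namespace Pinch

variable [MonoidalPreadditive C] (Pk : Pinch C)

/-- The pinched tensor subcategory: weights `≥ 0`, weight zero part in `C0`. -/
def PP : TensorSub C where
  S X Y :=
    { carrier := {f | Pk.Ge 0 f ∧ Pk.w 0 f ∈ Pk.C0.S X Y}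
      add_mem' := fun {f g} hf hg => ⟨hf.1.add hg.1, by
        rw [map_add]
        exact (Pk.C0.S X Y).add_mem hf.2 hg.2⟩
      zero_mem' := ⟨Ge.zero, by
        rw [map_zero]
        exact (Pk.C0.S X Y).zero_mem⟩
      neg_mem' := fun {f} hf => ⟨hf.1.neg, by
        rw [map_neg]
        exact (Pk.C0.S X Y).neg_mem hf.2⟩ }
  id_mem X := ⟨ge_id X, by rw [w_zero_id]; exact Pk.C0.id_mem X⟩
  comp_mem {X Y Z f g} hf hg := ⟨hf.1.comp' hg.1 le_rfl, by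
    rw [w_comp_of_ge hf.1 hg.1 (add_zero 0).symm]
    exact Pk.C0.comp_mem hf.2 hg.2⟩
  tensor_mem {X Y X' Y' f g} hf hg := ⟨hf.1.tensor' hg.1 le_rfl, by
    rw [w_tensor_of_ge hf.1 hg.1 (add_zero 0).symm]
    exact Pk.C0.tensor_mem hf.2 hg.2⟩
  assoc_hom_mem X Y Z := ⟨ge_C0 (Pk.C0.assoc_hom_mem _ _ _), by
    rw [Pk.C0_w (Pk.C0.assoc_hom_mem _ _ _)]; exact Pk.C0.assoc_hom_mem _ _ _⟩
  assoc_inv_mem X Y Z := ⟨ge_C0 (Pk.C0.assoc_inv_mem _ _ _), by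
    rw [Pk.C0_w (Pk.C0.assoc_inv_mem _ _ _)]; exact Pk.C0.assoc_inv_mem _ _ _⟩
  left_hom_mem X := ⟨ge_C0 (Pk.C0.left_hom_mem _), by
    rw [Pk.C0_w (Pk.C0.left_hom_mem _)]; exact Pk.C0.left_hom_mem _⟩
  left_inv_mem X := ⟨ge_C0 (Pk.C0.left_inv_mem _), by
    rw [Pk.C0_w (Pk.C0.left_inv_mem _)]; exact Pk.C0.left_inv_mem _⟩
  right_hom_mem X := ⟨ge_C0 (Pk.C0.right_hom_mem _), by
    rw [Pk.C0_w (Pk.C0.right_hom_mem _)]; exact Pk.C0.right_hom_mem _⟩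
  right_inv_mem X := ⟨ge_C0 (Pk.C0.right_inv_mem _), by
    rw [Pk.C0_w (Pk.C0.right_inv_mem _)]; exact Pk.C0.right_inv_mem _⟩
  braid_hom_mem X Y := ⟨ge_C0 (Pk.C0.braid_hom_mem _ _), by
    rw [Pk.C0_w (Pk.C0.braid_hom_mem _ _)]; exact Pk.C0.braid_hom_mem _ _⟩
  braid_inv_mem X Y := ⟨ge_C0 (Pk.C0.braid_inv_mem _ _), by
    rw [Pk.C0_w (Pk.C0.braid_inv_mem _ _)]; exact Pk.C0.braid_inv_mem _ _⟩
  dual_mem X := by
    obtain ⟨Y, e, h1, h2⟩ := Pk.C0.dual_mem X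
    exact ⟨Y, e, ⟨ge_C0 h1, by rw [Pk.C0_w h1]; exact h1⟩,
      ⟨ge_C0 h2, by rw [Pk.C0_w h2]; exact h2⟩⟩

variable {Pk} {X Y : C}

lemma mem_PP {f : X ⟶ Y} : f ∈ Pk.PP.S X Y ↔ Pk.Ge 0 f ∧ Pk.w 0 f ∈ Pk.C0.S X Y := Iff.rfl

lemma C0_le_PP {f : X ⟶ Y} (hf : f ∈ Pk.C0.S X Y) : f ∈ Pk.PP.S X Y :=
  ⟨ge_C0 hf, by rw [Pk.C0_w hf]; exact hf⟩

/-- Morphisms of positive weights are in `PP`. -/
lemma mem_PP_of_ge_one {f : X ⟶ Y} (hf : Pk.Ge 1 f) : f ∈ Pk.PP.S X Y :=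
  ⟨hf.mono (by norm_num), by
    rw [hf 0 (by norm_num)]
    exact (Pk.C0.S X Y).zero_mem⟩

lemma mem_PP_of_w {f : X ⟶ Y} {m : ℤ} (hm : 0 < m) (hf : Pk.w m f = f) : f ∈ Pk.PP.S X Y :=
  mem_PP_of_ge_one (by rw [← hf]; exact Ge.w (by omega) f)

variable (Pk)

/-- The weight zero part: a functor `PP ⥤ C0`. -/
@[simps]
def P0 : Pk.PP.Cat ⥤ Pk.C0.Cat where
  obj X := ⟨X.of⟩
  map f := ⟨Pk.w 0 f.f, f.mem.2⟩
  map_id X := TensorSub.hom_ext (w_zero_id X.of)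
  map_comp f g := TensorSub.hom_ext (w_comp_of_ge f.mem.1 g.mem.1 (add_zero 0).symm)

instance : Pk.P0.Additive where
  map_add {_ _ f g} := TensorSub.hom_ext (map_add (Pk.w 0) f.f g.f)

/-- Core data with identity structure maps. -/
def P0Core : Pk.P0.CoreMonoidal where
  εIso := Iso.refl _
  μIso _ _ := Iso.refl _
  μIso_hom_natural_left f X := TensorSub.hom_ext (by
    change Pk.w 0 f.f ▷ X.of ≫ 𝟙 _ = 𝟙 _ ≫ Pk.w 0 (f.f ▷ X.of)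
    rw [Category.comp_id, Category.id_comp, w_whiskerRight])
  μIso_hom_natural_right X f := TensorSub.hom_ext (by
    change X.of ◁ Pk.w 0 f.f ≫ 𝟙 _ = 𝟙 _ ≫ Pk.w 0 (X.of ◁ f.f)
    rw [Category.comp_id, Category.id_comp, w_whiskerLeft])
  associativity X Y Z := TensorSub.hom_ext (by
    change 𝟙 (X.of ⊗ Y.of) ▷ Z.of ≫ 𝟙 _ ≫ Pk.w 0 (α_ X.of Y.of Z.of).hom
      = (α_ X.of Y.of Z.of).hom ≫ X.of ◁ 𝟙 (Y.of ⊗ Z.of) ≫ 𝟙 _
    rw [Pk.C0_w (Pk.C0.assoc_hom_mem _ _ _)]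
    simp)
  left_unitality X := TensorSub.hom_ext (by
    change (λ_ X.of).hom = 𝟙 (𝟙_ C) ▷ X.of ≫ 𝟙 _ ≫ Pk.w 0 (λ_ X.of).hom
    rw [Pk.C0_w (Pk.C0.left_hom_mem _)]
    simp)
  right_unitality X := TensorSub.hom_ext (by
    change (ρ_ X.of).hom = X.of ◁ 𝟙 (𝟙_ C) ≫ 𝟙 _ ≫ Pk.w 0 (ρ_ X.of).hom
    rw [Pk.C0_w (Pk.C0.right_hom_mem _)]
    simp)

instance : Pk.P0.Monoidal := Pk.P0Core.toMonoidal

instance : Pk.P0.Braided where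
  braided X Y := TensorSub.hom_ext (by
    change 𝟙 (X.of ⊗ Y.of) ≫ Pk.w 0 (β_ X.of Y.of).hom = (β_ X.of Y.of).hom ≫ 𝟙 (Y.of ⊗ X.of)
    rw [Category.comp_id, Category.id_comp, Pk.C0_w (Pk.C0.braid_hom_mem _ _)])

lemma P0_ε : (Functor.LaxMonoidal.ε Pk.P0).f = 𝟙 (𝟙_ C) := rfl
lemma P0_μ (X Y : Pk.PP.Cat) : (Functor.LaxMonoidal.μ Pk.P0 X Y).f = 𝟙 (X.of ⊗ Y.of) := rfl
lemma P0_η : (Functor.OplaxMonoidal.η Pk.P0).f = 𝟙 (𝟙_ C) := rfl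
lemma P0_δ (X Y : Pk.PP.Cat) : (Functor.OplaxMonoidal.δ Pk.P0 X Y).f = 𝟙 (X.of ⊗ Y.of) := rfl

/-- The inclusion `PP ⥤ C`. -/
abbrev P2 : Pk.PP.Cat ⥤ C := TensorSub.incl Pk.PP

/-- The inclusion `C0 ⥤ PP`. -/
abbrev J : Pk.C0.Cat ⥤ Pk.PP.Cat := TensorSub.ofLE fun _ _ _ hf => C0_le_PP hf

/-- `J` is a section of `P0`. -/
def JP0 : Pk.J ⋙ Pk.P0 ≅ 𝟭 Pk.C0.Cat :=
  NatIso.ofComponents (fun X => Iso.refl _) (fun f => TensorSub.hom_ext (by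
    change Pk.w 0 f.f ≫ 𝟙 _ = 𝟙 _ ≫ f.f
    rw [Category.comp_id, Category.id_comp, Pk.C0_w f.mem]))

/-- `J` followed by the inclusion is the inclusion. -/
def JP2 : Pk.J ⋙ Pk.P2 ≅ TensorSub.incl Pk.C0 :=
  NatIso.ofComponents (fun X => Iso.refl _) (fun f => by
    change f.f ≫ 𝟙 _ = 𝟙 _ ≫ f.f
    rw [Category.comp_id, Category.id_comp])

end Pinch

end Pool.Agent.H75.TT
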