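import Pool.Agent.H85.TT.PP

/-!
The diagonal product category: same objects as `C`, morphisms are pairs of a morphism in the
tensor subcategory `S` and a morphism of `C`. The projections `p1`, `p2` and the functor
`PP ⥤ Diag C0`, all braided monoidal with identity structure maps; the two idempotents.
-/

open CategoryTheory CategoryTheory.Limits MonoidalCategory

namespace Pool.Agent.H75.TT

variable {C : Type} [Category.{0} C] [Preadditive C] [MonoidalCategory C] [SymmetricCategory C]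

/-- The diagonal product category of `S.Cat` and `C`. -/
@[ext]
structure Diag (S : TensorSub C) where
  of : C

namespace Diag

variable {S : TensorSub C}

/-- Morphisms: pairs. -/
@[ext]
structure Hom (X Y : Diag S) where
  f : X.of ⟶ Y.of
  mem : f ∈ S.S X.of Y.of
  g : X.of ⟶ Y.of

instance : Category.{0} (Diag S) where
  Hom := Hom
  id _ := ⟨𝟙 _, S.id_mem _, 𝟙 _⟩
  comp u v := ⟨u.f ≫ v.f, S.comp_mem u.mem v.mem, u.g ≫ v.g⟩
  id_comp u := Hom.ext (Category.id_comp u.f) (Category.id_comp u.g)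
  comp_id u := Hom.ext (Category.comp_id u.f) (Category.comp_id u.g)
  assoc u v w := Hom.ext (Category.assoc u.f v.f w.f) (Category.assoc u.g v.g w.g)

variable {X Y Z W : Diag S}

@[ext]
lemma hom_ext {u v : X ⟶ Y} (h : u.f = v.f) (h' : u.g = v.g) : u = v := Hom.ext h h'

lemma mem_S (u : X ⟶ Y) : u.f ∈ S.S X.of Y.of := Hom.mem u

@[simp] lemma id_f (X : Diag S) : (𝟙 X : X ⟶ X).f = 𝟙 X.of := rfl
@[simp] lemma id_g (X : Diag S) : (𝟙 X : X ⟶ X).g = 𝟙 X.of := rfl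
@[simp, reassoc] lemma comp_f (u : X ⟶ Y) (v : Y ⟶ Z) : (u ≫ v).f = u.f ≫ v.f := rfl
@[simp, reassoc] lemma comp_g (u : X ⟶ Y) (v : Y ⟶ Z) : (u ≫ v).g = u.g ≫ v.g := rfl

instance : AddCommGroup (X ⟶ Y) where
  add u v := ⟨u.f + v.f, (S.S _ _).add_mem u.mem v.mem, u.g + v.g⟩
  zero := ⟨0, (S.S _ _).zero_mem, 0⟩
  neg u := ⟨-u.f, (S.S _ _).neg_mem u.mem, -u.g⟩
  sub u v := ⟨u.f - v.f, (S.S _ _).sub_mem u.mem v.mem, u.g - v.g⟩
  nsmul n u := ⟨n • u.f, (S.S _ _).nsmul_mem u.mem n, n • u.g⟩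
  zsmul n u := ⟨n • u.f, (S.S _ _).zsmul_mem u.mem n, n • u.g⟩
  add_assoc u v w := Hom.ext (add_assoc u.f v.f w.f) (add_assoc u.g v.g w.g)
  zero_add u := Hom.ext (zero_add u.f) (zero_add u.g)
  add_zero u := Hom.ext (add_zero u.f) (add_zero u.g)
  add_comm u v := Hom.ext (add_comm u.f v.f) (add_comm u.g v.g)
  neg_add_cancel u := Hom.ext (neg_add_cancel u.f) (neg_add_cancel u.g)
  sub_eq_add_neg u v := Hom.ext (sub_eq_add_neg u.f v.f) (sub_eq_add_neg u.g v.g)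
  nsmul_zero u := Hom.ext (zero_smul ℕ u.f) (zero_smul ℕ u.g)
  nsmul_succ n u := Hom.ext (succ_nsmul u.f n) (succ_nsmul u.g n)
  zsmul_zero' u := Hom.ext (zero_smul ℤ u.f) (zero_smul ℤ u.g)
  zsmul_succ' n u := Hom.ext (SubNegMonoid.zsmul_succ' n u.f) (SubNegMonoid.zsmul_succ' n u.g)
  zsmul_neg' n u := Hom.ext (SubNegMonoid.zsmul_neg' n u.f) (SubNegMonoid.zsmul_neg' n u.g)

@[simp] lemma add_f (u v : X ⟶ Y) : (u + v).f = u.f + v.f := rfl
@[simp] lemma add_g (u v : X ⟶ Y) : (u + v).g = u.g + v.g := rfl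
@[simp] lemma zero_f : (0 : X ⟶ Y).f = 0 := rfl
@[simp] lemma zero_g : (0 : X ⟶ Y).g = 0 := rfl
@[simp] lemma neg_f (u : X ⟶ Y) : (-u).f = - u.f := rfl
@[simp] lemma neg_g (u : X ⟶ Y) : (-u).g = - u.g := rfl
@[simp] lemma sub_f (u v : X ⟶ Y) : (u - v).f = u.f - v.f := rfl
@[simp] lemma sub_g (u v : X ⟶ Y) : (u - v).g = u.g - v.g := rfl
@[simp] lemma nsmul_f (n : ℕ) (u : X ⟶ Y) : (n • u).f = n • u.f := rfl
@[simp] lemma nsmul_g (n : ℕ) (u : X ⟶ Y) : (n • u).g = n • u.g := rfl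
@[simp] lemma zsmul_f (n : ℤ) (u : X ⟶ Y) : (n • u).f = n • u.f := rfl
@[simp] lemma zsmul_g (n : ℤ) (u : X ⟶ Y) : (n • u).g = n • u.g := rfl

instance : Preadditive (Diag S) where
  add_comp _ _ _ u u' v :=
    hom_ext (Preadditive.add_comp _ _ _ u.f u'.f v.f) (Preadditive.add_comp _ _ _ u.g u'.g v.g)
  comp_add _ _ _ u v v' :=
    hom_ext (Preadditive.comp_add _ _ _ u.f v.f v'.f) (Preadditive.comp_add _ _ _ u.g v.g v'.g)

@[simp]
lemma sum_f {α : Type*} (s : Finset α) (u : α → (X ⟶ Y)) :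
    (∑ a ∈ s, u a).f = ∑ a ∈ s, (u a).f := by
  classical
  induction s using Finset.induction_on with
  | empty => simp
  | insert a s ha ih => rw [Finset.sum_insert ha, Finset.sum_insert ha, add_f, ih]

@[simp]
lemma sum_g {α : Type*} (s : Finset α) (u : α → (X ⟶ Y)) :
    (∑ a ∈ s, u a).g = ∑ a ∈ s, (u a).g := by
  classical
  induction s using Finset.induction_on with
  | empty => simp
  | insert a s ha ih => rw [Finset.sum_insert ha, Finset.sum_insert ha, add_g, ih]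

/-- Isomorphisms of `Diag S` with both components the same isomorphism of `C`. -/
@[simps]
def isoMk (e : X.of ≅ Y.of) (h1 : e.hom ∈ S.S X.of Y.of) (h2 : e.inv ∈ S.S Y.of X.of) :
    X ≅ Y where
  hom := ⟨e.hom, h1, e.hom⟩
  inv := ⟨e.inv, h2, e.inv⟩
  hom_inv_id := hom_ext e.hom_inv_id e.hom_inv_id
  inv_hom_id := hom_ext e.inv_hom_id e.inv_hom_id

@[simps]
instance : MonoidalCategoryStruct (Diag S) where
  tensorObj X Y := ⟨X.of ⊗ Y.of⟩
  tensorUnit := ⟨𝟙_ C⟩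
  tensorHom u v := ⟨u.f ⊗ₘ v.f, S.tensor_mem u.mem v.mem, u.g ⊗ₘ v.g⟩
  whiskerLeft X _ _ u := ⟨X.of ◁ u.f, TensorSub.whiskerLeft_mem _ u.mem, X.of ◁ u.g⟩
  whiskerRight u X := ⟨u.f ▷ X.of, TensorSub.whiskerRight_mem u.mem _, u.g ▷ X.of⟩
  associator X Y Z := isoMk (α_ X.of Y.of Z.of) (S.assoc_hom_mem _ _ _) (S.assoc_inv_mem _ _ _)
  leftUnitor X := isoMk (λ_ X.of) (S.left_hom_mem _) (S.left_inv_mem _)
  rightUnitor X := isoMk (ρ_ X.of) (S.right_hom_mem _) (S.right_inv_mem _)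

instance : MonoidalCategory (Diag S) where
  tensorHom_def u v := hom_ext (MonoidalCategory.tensorHom_def u.f v.f)
    (MonoidalCategory.tensorHom_def u.g v.g)
  id_tensorHom_id X Y := hom_ext (MonoidalCategory.id_tensorHom_id X.of Y.of)
    (MonoidalCategory.id_tensorHom_id X.of Y.of)
  tensorHom_comp_tensorHom u v u' v' :=
    hom_ext (MonoidalCategory.tensorHom_comp_tensorHom u.f v.f u'.f v'.f)
      (MonoidalCategory.tensorHom_comp_tensorHom u.g v.g u'.g v'.g)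
  whiskerLeft_id X Y := hom_ext (MonoidalCategory.whiskerLeft_id X.of Y.of)
    (MonoidalCategory.whiskerLeft_id X.of Y.of)
  id_whiskerRight X Y := hom_ext (MonoidalCategory.id_whiskerRight X.of Y.of)
    (MonoidalCategory.id_whiskerRight X.of Y.of)
  associator_naturality u v w := hom_ext (MonoidalCategory.associator_naturality u.f v.f w.f)
    (MonoidalCategory.associator_naturality u.g v.g w.g)
  leftUnitor_naturality u := hom_ext (MonoidalCategory.leftUnitor_naturality u.f)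
    (MonoidalCategory.leftUnitor_naturality u.g)
  rightUnitor_naturality u := hom_ext (MonoidalCategory.rightUnitor_naturality u.f)
    (MonoidalCategory.rightUnitor_naturality u.g)
  pentagon X Y Z W := hom_ext (MonoidalCategory.pentagon X.of Y.of Z.of W.of)
    (MonoidalCategory.pentagon X.of Y.of Z.of W.of)
  triangle X Y := hom_ext (MonoidalCategory.triangle X.of Y.of)
    (MonoidalCategory.triangle X.of Y.of)

@[simps]
instance : BraidedCategory (Diag S) where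
  braiding X Y := isoMk (β_ X.of Y.of) (S.braid_hom_mem _ _) (S.braid_inv_mem _ _)
  braiding_naturality_right X _ _ u :=
    hom_ext (BraidedCategory.braiding_naturality_right X.of u.f)
      (BraidedCategory.braiding_naturality_right X.of u.g)
  braiding_naturality_left u Z :=
    hom_ext (BraidedCategory.braiding_naturality_left u.f Z.of)
      (BraidedCategory.braiding_naturality_left u.g Z.of)
  hexagon_forward X Y Z := hom_ext (BraidedCategory.hexagon_forward X.of Y.of Z.of)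
    (BraidedCategory.hexagon_forward X.of Y.of Z.of)
  hexagon_reverse X Y Z := hom_ext (BraidedCategory.hexagon_reverse X.of Y.of Z.of)
    (BraidedCategory.hexagon_reverse X.of Y.of Z.of)

instance : SymmetricCategory (Diag S) where
  symmetry X Y := hom_ext (SymmetricCategory.symmetry X.of Y.of)
    (SymmetricCategory.symmetry X.of Y.of)

instance [MonoidalPreadditive C] : MonoidalPreadditive (Diag S) where
  whiskerLeft_zero := hom_ext (MonoidalPreadditive.whiskerLeft_zero)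
    (MonoidalPreadditive.whiskerLeft_zero)
  zero_whiskerRight := hom_ext (MonoidalPreadditive.zero_whiskerRight)
    (MonoidalPreadditive.zero_whiskerRight)
  whiskerLeft_add _ _ := hom_ext (MonoidalPreadditive.whiskerLeft_add _ _)
    (MonoidalPreadditive.whiskerLeft_add _ _)
  add_whiskerRight _ _ := hom_ext (MonoidalPreadditive.add_whiskerRight _ _)
    (MonoidalPreadditive.add_whiskerRight _ _)

/-- An exact pairing whose maps are in the subcategory gives an exact pairing in `Diag S`. -/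
@[reducible]
def exactPairing {X Y : C} (e : ExactPairing X Y)
    (h1 : e.coevaluation' ∈ S.S (𝟙_ C) (X ⊗ Y)) (h2 : e.evaluation' ∈ S.S (Y ⊗ X) (𝟙_ C)) :
    ExactPairing (⟨X⟩ : Diag S) ⟨Y⟩ where
  coevaluation' := ⟨e.coevaluation', h1, e.coevaluation'⟩
  evaluation' := ⟨e.evaluation', h2, e.evaluation'⟩
  coevaluation_evaluation' := hom_ext e.coevaluation_evaluation' e.coevaluation_evaluation'
  evaluation_coevaluation' := hom_ext e.evaluation_coevaluation' e.evaluation_coevaluation'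

lemma nonempty_hasRightDual (X : Diag S) : Nonempty (HasRightDual X) := by
  obtain ⟨Y, e, h1, h2⟩ := S.dual_mem X.of
  exact ⟨{ rightDual := ⟨Y⟩, exact := exactPairing e h1 h2 }⟩

/-! ### The projections -/

/-- First projection. -/
@[simps]
def p1 (S : TensorSub C) : Diag S ⥤ S.Cat where
  obj X := ⟨X.of⟩
  map u := ⟨u.f, u.mem⟩

/-- Second projection. -/
@[simps]
def p2 (S : TensorSub C) : Diag S ⥤ C where
  obj X := X.of
  map u := u.g

instance : (p1 S).Additive where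

instance : (p2 S).Additive where

instance : (p1 S).Full where
  map_surjective v := ⟨⟨v.f, v.mem, 0⟩, rfl⟩

instance : (p2 S).Full where
  map_surjective v := ⟨⟨0, (S.S _ _).zero_mem, v⟩, rfl⟩

/-- The projections are jointly faithful. -/
lemma hom_ext_p {u v : X ⟶ Y} (h1 : (p1 S).map u = (p1 S).map v)
    (h2 : (p2 S).map u = (p2 S).map v) : u = v :=
  hom_ext (congrArg (fun t : (p1 S).obj X ⟶ (p1 S).obj Y => t.f) h1) h2

/-- Core data with identity structure maps. -/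
def p1Core (S : TensorSub C) : (p1 S).CoreMonoidal where
  εIso := Iso.refl _
  μIso _ _ := Iso.refl _
  μIso_hom_natural_left u X := TensorSub.hom_ext (by
    change u.f ▷ X.of ≫ 𝟙 _ = 𝟙 _ ≫ u.f ▷ X.of
    rw [Category.comp_id, Category.id_comp])
  μIso_hom_natural_right X u := TensorSub.hom_ext (by
    change X.of ◁ u.f ≫ 𝟙 _ = 𝟙 _ ≫ X.of ◁ u.f
    rw [Category.comp_id, Category.id_comp])
  associativity X Y Z := TensorSub.hom_ext (by
    change 𝟙 (X.of ⊗ Y.of) ▷ Z.of ≫ 𝟙 _ ≫ (α_ X.of Y.of Z.of).hom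
      = (α_ X.of Y.of Z.of).hom ≫ X.of ◁ 𝟙 (Y.of ⊗ Z.of) ≫ 𝟙 _
    simp)
  left_unitality X := TensorSub.hom_ext (by
    change (λ_ X.of).hom = 𝟙 (𝟙_ C) ▷ X.of ≫ 𝟙 _ ≫ (λ_ X.of).hom
    simp)
  right_unitality X := TensorSub.hom_ext (by
    change (ρ_ X.of).hom = X.of ◁ 𝟙 (𝟙_ C) ≫ 𝟙 _ ≫ (ρ_ X.of).hom
    simp)

instance : (p1 S).Monoidal := (p1Core S).toMonoidal

instance : (p1 S).Braided where
  braided X Y := TensorSub.hom_ext (by
    change 𝟙 (X.of ⊗ Y.of) ≫ (β_ X.of Y.of).hom = (β_ X.of Y.of).hom ≫ 𝟙 (Y.of ⊗ X.of)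
    rw [Category.comp_id, Category.id_comp])

/-- Core data with identity structure maps. -/
def p2Core (S : TensorSub C) : (p2 S).CoreMonoidal where
  εIso := Iso.refl _
  μIso _ _ := Iso.refl _
  μIso_hom_natural_left u X := by
    change u.g ▷ X.of ≫ 𝟙 _ = 𝟙 _ ≫ u.g ▷ X.of
    rw [Category.comp_id, Category.id_comp]
  μIso_hom_natural_right X u := by
    change X.of ◁ u.g ≫ 𝟙 _ = 𝟙 _ ≫ X.of ◁ u.g
    rw [Category.comp_id, Category.id_comp]
  associativity X Y Z := by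
    change 𝟙 (X.of ⊗ Y.of) ▷ Z.of ≫ 𝟙 _ ≫ (α_ X.of Y.of Z.of).hom
      = (α_ X.of Y.of Z.of).hom ≫ X.of ◁ 𝟙 (Y.of ⊗ Z.of) ≫ 𝟙 _
    simp
  left_unitality X := by
    change (λ_ X.of).hom = 𝟙 (𝟙_ C) ▷ X.of ≫ 𝟙 _ ≫ (λ_ X.of).hom
    simp
  right_unitality X := by
    change (ρ_ X.of).hom = X.of ◁ 𝟙 (𝟙_ C) ≫ 𝟙 _ ≫ (ρ_ X.of).hom
    simp

instance : (p2 S).Monoidal := (p2Core S).toMonoidal

instance : (p2 S).Braided where
  braided X Y := by
    change 𝟙 (X.of ⊗ Y.of) ≫ (β_ X.of Y.of).hom = (β_ X.of Y.of).hom ≫ 𝟙 (Y.of ⊗ X.of)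
    rw [Category.comp_id, Category.id_comp]

lemma p1_ε : (Functor.LaxMonoidal.ε (p1 S)).f = 𝟙 (𝟙_ C) := rfl
lemma p1_μ (X Y : Diag S) : (Functor.LaxMonoidal.μ (p1 S) X Y).f = 𝟙 (X.of ⊗ Y.of) := rfl
lemma p1_η : (Functor.OplaxMonoidal.η (p1 S)).f = 𝟙 (𝟙_ C) := rfl
lemma p1_δ (X Y : Diag S) : (Functor.OplaxMonoidal.δ (p1 S) X Y).f = 𝟙 (X.of ⊗ Y.of) := rfl
lemma p2_ε : Functor.LaxMonoidal.ε (p2 S) = 𝟙 (𝟙_ C) := rfl
lemma p2_μ (X Y : Diag S) : Functor.LaxMonoidal.μ (p2 S) X Y = 𝟙 (X.of ⊗ Y.of) := rfl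
lemma p2_η : Functor.OplaxMonoidal.η (p2 S) = 𝟙 (𝟙_ C) := rfl
lemma p2_δ (X Y : Diag S) : Functor.OplaxMonoidal.δ (p2 S) X Y = 𝟙 (X.of ⊗ Y.of) := rfl

/-! ### The idempotents -/

/-- First idempotent. -/
@[simps]
def e1 (X : Diag S) : X ⟶ X := ⟨𝟙 _, S.id_mem _, 0⟩

/-- Second idempotent. -/
@[simps]
def e2 (X : Diag S) : X ⟶ X := ⟨0, (S.S _ _).zero_mem, 𝟙 _⟩

@[simp] lemma e1_add_e2 (X : Diag S) : e1 X + e2 X = 𝟙 X :=
  hom_ext (add_zero _) (zero_add _)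

@[simp, reassoc] lemma e1_comp_e1 (X : Diag S) : e1 X ≫ e1 X = e1 X :=
  hom_ext (Category.comp_id _) comp_zero

@[simp, reassoc] lemma e2_comp_e2 (X : Diag S) : e2 X ≫ e2 X = e2 X :=
  hom_ext comp_zero (Category.comp_id _)

@[simp, reassoc] lemma e1_comp_e2 (X : Diag S) : e1 X ≫ e2 X = 0 :=
  hom_ext comp_zero zero_comp

@[simp, reassoc] lemma e2_comp_e1 (X : Diag S) : e2 X ≫ e1 X = 0 :=
  hom_ext zero_comp comp_zero

@[reassoc]
lemma e1_naturality (u : X ⟶ Y) : e1 X ≫ u = u ≫ e1 Y :=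
  hom_ext ((Category.id_comp u.f).trans (Category.comp_id u.f).symm)
    ((zero_comp (f := u.g)).trans (comp_zero (f := u.g)).symm)

@[reassoc]
lemma e2_naturality (u : X ⟶ Y) : e2 X ≫ u = u ≫ e2 Y :=
  hom_ext ((zero_comp (f := u.f)).trans (comp_zero (f := u.f)).symm)
    ((Category.id_comp u.g).trans (Category.comp_id u.g).symm)

lemma whiskerLeft_e1 [MonoidalPreadditive C] (X Y : Diag S) : X ◁ e1 Y = e1 (X ⊗ Y) :=
  hom_ext (MonoidalCategory.whiskerLeft_id X.of Y.of) MonoidalPreadditive.whiskerLeft_zero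

lemma whiskerLeft_e2 [MonoidalPreadditive C] (X Y : Diag S) : X ◁ e2 Y = e2 (X ⊗ Y) :=
  hom_ext MonoidalPreadditive.whiskerLeft_zero (MonoidalCategory.whiskerLeft_id X.of Y.of)

lemma e1_whiskerRight [MonoidalPreadditive C] (X Y : Diag S) : e1 X ▷ Y = e1 (X ⊗ Y) :=
  hom_ext (MonoidalCategory.id_whiskerRight X.of Y.of) MonoidalPreadditive.zero_whiskerRight

lemma e2_whiskerRight [MonoidalPreadditive C] (X Y : Diag S) : e2 X ▷ Y = e2 (X ⊗ Y) :=
  hom_ext MonoidalPreadditive.zero_whiskerRight (MonoidalCategory.id_whiskerRight X.of Y.of)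

end Diag

namespace Pinch

variable [MonoidalPreadditive C] (Pk : Pinch C)

/-- The functor `PP ⥤ Diag C0`, `φ ↦ (w 0 φ, φ)`. -/
@[simps]
def PD : Pk.PP.Cat ⥤ Diag Pk.C0 where
  obj X := ⟨X.of⟩
  map f := ⟨Pk.w 0 f.f, f.mem.2, f.f⟩
  map_id X := Diag.hom_ext (w_zero_id X.of) rfl
  map_comp f g := Diag.hom_ext (w_comp_of_ge f.mem.1 g.mem.1 (add_zero 0).symm) rfl

instance : Pk.PD.Additive where
  map_add {_ _ f g} := Diag.hom_ext (map_add (Pk.w 0) f.f g.f) rfl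

instance : Pk.PD.Faithful where
  map_injective {X Y f g} e := by
    have h1 : (Pk.PD.map f).g = (Pk.PD.map g).g := by rw [e]
    exact TensorSub.hom_ext h1

/-- Core data with identity structure maps. -/
def PDCore : Pk.PD.CoreMonoidal where
  εIso := Iso.refl _
  μIso _ _ := Iso.refl _
  μIso_hom_natural_left f X := Diag.hom_ext (by
    change Pk.w 0 f.f ▷ X.of ≫ 𝟙 _ = 𝟙 _ ≫ Pk.w 0 (f.f ▷ X.of)
    rw [Category.comp_id, Category.id_comp, w_whiskerRight]) (by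
    change f.f ▷ X.of ≫ 𝟙 _ = 𝟙 _ ≫ f.f ▷ X.of
    rw [Category.comp_id, Category.id_comp])
  μIso_hom_natural_right X f := Diag.hom_ext (by
    change X.of ◁ Pk.w 0 f.f ≫ 𝟙 _ = 𝟙 _ ≫ Pk.w 0 (X.of ◁ f.f)
    rw [Category.comp_id, Category.id_comp, w_whiskerLeft]) (by
    change X.of ◁ f.f ≫ 𝟙 _ = 𝟙 _ ≫ X.of ◁ f.f
    rw [Category.comp_id, Category.id_comp])
  associativity X Y Z := Diag.hom_ext (by
    change 𝟙 (X.of ⊗ Y.of) ▷ Z.of ≫ 𝟙 _ ≫ Pk.w 0 (α_ X.of Y.of Z.of).hom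
      = (α_ X.of Y.of Z.of).hom ≫ X.of ◁ 𝟙 (Y.of ⊗ Z.of) ≫ 𝟙 _
    rw [Pk.C0_w (Pk.C0.assoc_hom_mem _ _ _)]
    simp) (by
    change 𝟙 (X.of ⊗ Y.of) ▷ Z.of ≫ 𝟙 _ ≫ (α_ X.of Y.of Z.of).hom
      = (α_ X.of Y.of Z.of).hom ≫ X.of ◁ 𝟙 (Y.of ⊗ Z.of) ≫ 𝟙 _
    simp)
  left_unitality X := Diag.hom_ext (by
    change (λ_ X.of).hom = 𝟙 (𝟙_ C) ▷ X.of ≫ 𝟙 _ ≫ Pk.w 0 (λ_ X.of).hom
    rw [Pk.C0_w (Pk.C0.left_hom_mem _)]
    simp) (by
    change (λ_ X.of).hom = 𝟙 (𝟙_ C) ▷ X.of ≫ 𝟙 _ ≫ (λ_ X.of).hom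
    simp)
  right_unitality X := Diag.hom_ext (by
    change (ρ_ X.of).hom = X.of ◁ 𝟙 (𝟙_ C) ≫ 𝟙 _ ≫ Pk.w 0 (ρ_ X.of).hom
    rw [Pk.C0_w (Pk.C0.right_hom_mem _)]
    simp) (by
    change (ρ_ X.of).hom = X.of ◁ 𝟙 (𝟙_ C) ≫ 𝟙 _ ≫ (ρ_ X.of).hom
    simp)

instance : Pk.PD.Monoidal := Pk.PDCore.toMonoidal

instance : Pk.PD.Braided where
  braided X Y := Diag.hom_ext (by
    change 𝟙 (X.of ⊗ Y.of) ≫ Pk.w 0 (β_ X.of Y.of).hom = (β_ X.of Y.of).hom ≫ 𝟙 (Y.of ⊗ X.of)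
    rw [Category.comp_id, Category.id_comp, Pk.C0_w (Pk.C0.braid_hom_mem _ _)]) (by
    change 𝟙 (X.of ⊗ Y.of) ≫ (β_ X.of Y.of).hom = (β_ X.of Y.of).hom ≫ 𝟙 (Y.of ⊗ X.of)
    rw [Category.comp_id, Category.id_comp])

lemma PD_comp_p1 : Pk.PD ⋙ Diag.p1 Pk.C0 = Pk.P0 := rfl

lemma PD_comp_p2 : Pk.PD ⋙ Diag.p2 Pk.C0 = Pk.P2 := rfl

end Pinch

end Pool.Agent.H75.TT
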