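import Pool.Agent.H85.TT.Sub

/-!
Weight lemmas for a `Pinch`: weights of compositions and tensor products, morphisms of weights
`≥ a`.
-/

open CategoryTheory CategoryTheory.Limits MonoidalCategory

namespace Pool.Agent.H75.TT

namespace Pinch

variable {C : Type} [Category.{0} C] [Preadditive C] [MonoidalCategory C] [SymmetricCategory C]
variable (Pk : Pinch C) {X Y Z X' Y' : C}

lemma w_finite (f : X ⟶ Y) : {m : ℤ | Pk.w m f ≠ 0}.Finite := by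
  refine (Finset.Icc (-(Pk.bd X Y : ℤ)) (Pk.bd X Y)).finite_toSet.subset ?_
  intro m hm
  rw [Finset.mem_coe, Finset.mem_Icc, ← abs_le]
  by_contra h
  exact hm (Pk.w_bd m f (not_le.1 h))

/-- The finite set of weights of a morphism. -/
noncomputable def wts (f : X ⟶ Y) : Finset ℤ := (Pk.w_finite f).toFinset

lemma mem_wts {f : X ⟶ Y} {m : ℤ} : m ∈ Pk.wts f ↔ Pk.w m f ≠ 0 := by
  simp [wts]

lemma sum_w_of_subset (f : X ⟶ Y) (s : Finset ℤ) (hs : ∀ m, Pk.w m f ≠ 0 → m ∈ s) :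
    ∑ m ∈ s, Pk.w m f = f := by
  classical
  have h1 : ∑ m ∈ Pk.wts f, Pk.w m f = ∑ m ∈ s, Pk.w m f := by
    refine Finset.sum_subset (fun m hm => hs m (Pk.mem_wts.1 hm)) ?_
    intro m _ hm
    rwa [Pk.mem_wts, not_not] at hm
  have h2 : ∑ m ∈ Pk.wts f, Pk.w m f
      = ∑ m ∈ Finset.Icc (-(Pk.bd X Y : ℤ)) (Pk.bd X Y), Pk.w m f := by
    refine Finset.sum_subset (fun m hm => ?_) ?_
    · rw [Finset.mem_Icc, ← abs_le]
      by_contra h
      exact Pk.mem_wts.1 hm (Pk.w_bd m f (not_le.1 h))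
    · intro m _ hm
      rwa [Pk.mem_wts, not_not] at hm
  rw [← h1, h2, Pk.sum_w]

lemma sum_wts (f : X ⟶ Y) : ∑ m ∈ Pk.wts f, Pk.w m f = f :=
  Pk.sum_w_of_subset f _ fun _ h => Pk.mem_wts.2 h

lemma ext_w {f g : X ⟶ Y} (h : ∀ m, Pk.w m f = Pk.w m g) : f = g := by
  classical
  have h1 := Pk.sum_w_of_subset f (Pk.wts f ∪ Pk.wts g)
      (fun m hm => Finset.mem_union_left _ (Pk.mem_wts.2 hm))
  have h2 := Pk.sum_w_of_subset g (Pk.wts f ∪ Pk.wts g)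
      (fun m hm => Finset.mem_union_right _ (Pk.mem_wts.2 hm))
  rw [← h1, Finset.sum_congr rfl fun m _ => h m, h2]

lemma w_self (m : ℤ) (f : X ⟶ Y) : Pk.w m (Pk.w m f) = Pk.w m f := by
  rw [Pk.w_w, if_pos rfl]

lemma w_ne {m m' : ℤ} (h : m ≠ m') (f : X ⟶ Y) : Pk.w m (Pk.w m' f) = 0 := by
  rw [Pk.w_w, if_neg h]

/-- Homogeneous parts of a composition of homogeneous parts. -/
lemma w_comp_parts (m a b : ℤ) (f : X ⟶ Y) (g : Y ⟶ Z) :
    Pk.w m (Pk.w a f ≫ Pk.w b g) = if b = m - a then Pk.w a f ≫ Pk.w b g else 0 := by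
  rw [← Pk.w_comp a b f g, Pk.w_w]
  by_cases h : b = m - a
  · have h' : m = a + b := by omega
    rw [if_pos h', if_pos h, h']
  · have h' : ¬ m = a + b := by omega
    rw [if_neg h', if_neg h]

lemma w_tensor_parts (m a b : ℤ) (f : X ⟶ Y) (g : X' ⟶ Y') :
    Pk.w m (Pk.w a f ⊗ₘ Pk.w b g) = if b = m - a then Pk.w a f ⊗ₘ Pk.w b g else 0 := by
  rw [← Pk.w_tensor a b f g, Pk.w_w]
  by_cases h : b = m - a
  · have h' : m = a + b := by omega
    rw [if_pos h', if_pos h, h']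
  · have h' : ¬ m = a + b := by omega
    rw [if_neg h', if_neg h]

/-- The weight `m` part of a composition. -/
lemma w_comp_sum (m : ℤ) (f : X ⟶ Y) (g : Y ⟶ Z) (s : Finset ℤ)
    (hs : ∀ a, Pk.w a f ≠ 0 → a ∈ s) :
    Pk.w m (f ≫ g) = ∑ a ∈ s, Pk.w a f ≫ Pk.w (m - a) g := by
  classical
  conv_lhs => rw [← Pk.sum_w_of_subset f s hs, ← Pk.sum_wts g]
  rw [Preadditive.sum_comp, map_sum]
  refine Finset.sum_congr rfl fun a _ => ?_
  rw [Preadditive.comp_sum, map_sum]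
  rw [Finset.sum_congr rfl fun b _ => Pk.w_comp_parts m a b f g]
  rw [Finset.sum_ite_eq']
  split_ifs with h
  · rfl
  · rw [Pk.mem_wts, not_not] at h
    rw [h, comp_zero]

/-- The weight `m` part of a tensor product. -/
lemma w_tensor_sum [MonoidalPreadditive C] (m : ℤ) (f : X ⟶ Y) (g : X' ⟶ Y') (s : Finset ℤ)
    (hs : ∀ a, Pk.w a f ≠ 0 → a ∈ s) :
    Pk.w m (f ⊗ₘ g) = ∑ a ∈ s, Pk.w a f ⊗ₘ Pk.w (m - a) g := by
  classical
  conv_lhs => rw [← Pk.sum_w_of_subset f s hs, ← Pk.sum_wts g]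
  rw [sum_tensor, map_sum]
  refine Finset.sum_congr rfl fun a _ => ?_
  rw [tensor_sum, map_sum]
  rw [Finset.sum_congr rfl fun b _ => Pk.w_tensor_parts m a b f g]
  rw [Finset.sum_ite_eq']
  split_ifs with h
  · rfl
  · rw [Pk.mem_wts, not_not] at h
    rw [h, MonoidalPreadditive.tensor_zero]

/-! ### Morphisms of weights `≥ a` -/

/-- All weights of `f` are at least `a`. -/
def Ge (a : ℤ) (f : X ⟶ Y) : Prop := ∀ m < a, Pk.w m f = 0

variable {Pk}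

lemma Ge.mono {a b : ℤ} {f : X ⟶ Y} (h : Pk.Ge a f) (hab : b ≤ a) : Pk.Ge b f :=
  fun m hm => h m (lt_of_lt_of_le hm hab)

lemma Ge.zero {a : ℤ} : Pk.Ge a (0 : X ⟶ Y) := fun _ _ => map_zero _

lemma Ge.add {a : ℤ} {f g : X ⟶ Y} (hf : Pk.Ge a f) (hg : Pk.Ge a g) : Pk.Ge a (f + g) :=
  fun m hm => by rw [map_add, hf m hm, hg m hm, add_zero]

lemma Ge.neg {a : ℤ} {f : X ⟶ Y} (hf : Pk.Ge a f) : Pk.Ge a (-f) :=
  fun m hm => by rw [map_neg, hf m hm, neg_zero]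

lemma Ge.sub {a : ℤ} {f g : X ⟶ Y} (hf : Pk.Ge a f) (hg : Pk.Ge a g) : Pk.Ge a (f - g) :=
  fun m hm => by rw [map_sub, hf m hm, hg m hm, sub_zero]

lemma Ge.sum {a : ℤ} {α : Type*} {s : Finset α} {f : α → (X ⟶ Y)}
    (hf : ∀ i ∈ s, Pk.Ge a (f i)) : Pk.Ge a (∑ i ∈ s, f i) :=
  fun m hm => by rw [map_sum]; exact Finset.sum_eq_zero fun i hi => hf i hi m hm

lemma Ge.w {a m : ℤ} (h : a ≤ m) (f : X ⟶ Y) : Pk.Ge a (Pk.w m f) :=
  fun m' hm' => Pk.w_ne (by omega) f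

lemma exists_ge (f : X ⟶ Y) : ∃ N : ℕ, Pk.Ge (-(N : ℤ)) f :=
  ⟨Pk.bd X Y, fun m hm => Pk.w_bd m f (by rw [lt_abs]; omega)⟩

lemma Ge.comp {a b : ℤ} {f : X ⟶ Y} {g : Y ⟶ Z} (hf : Pk.Ge a f) (hg : Pk.Ge b g) :
    Pk.Ge (a + b) (f ≫ g) := by
  intro m hm
  rw [Pk.w_comp_sum m f g (Pk.wts f) fun _ h => Pk.mem_wts.2 h]
  refine Finset.sum_eq_zero fun c _ => ?_
  by_cases hc : c < a
  · rw [hf c hc, zero_comp]
  · rw [hg (m - c) (by omega), comp_zero]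

lemma Ge.comp' {a b c : ℤ} {f : X ⟶ Y} {g : Y ⟶ Z} (hf : Pk.Ge a f) (hg : Pk.Ge b g)
    (h : c ≤ a + b) : Pk.Ge c (f ≫ g) := (hf.comp hg).mono h

lemma Ge.tensor [MonoidalPreadditive C] {a b : ℤ} {f : X ⟶ Y} {g : X' ⟶ Y'}
    (hf : Pk.Ge a f) (hg : Pk.Ge b g) : Pk.Ge (a + b) (f ⊗ₘ g) := by
  intro m hm
  rw [Pk.w_tensor_sum m f g (Pk.wts f) fun _ h => Pk.mem_wts.2 h]
  refine Finset.sum_eq_zero fun c _ => ?_
  by_cases hc : c < a
  · rw [hf c hc, MonoidalPreadditive.zero_tensor]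
  · rw [hg (m - c) (by omega), MonoidalPreadditive.tensor_zero]

lemma Ge.tensor' [MonoidalPreadditive C] {a b c : ℤ} {f : X ⟶ Y} {g : X' ⟶ Y'}
    (hf : Pk.Ge a f) (hg : Pk.Ge b g) (h : c ≤ a + b) : Pk.Ge c (f ⊗ₘ g) :=
  (hf.tensor hg).mono h

/-- The lowest part of a composition. -/
lemma w_comp_of_ge {a b m : ℤ} {f : X ⟶ Y} {g : Y ⟶ Z} (hf : Pk.Ge a f) (hg : Pk.Ge b g)
    (h : m = a + b) : Pk.w m (f ≫ g) = Pk.w a f ≫ Pk.w b g := by
  classical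
  rw [Pk.w_comp_sum m f g (insert a (Pk.wts f))
    fun _ h => Finset.mem_insert_of_mem (Pk.mem_wts.2 h)]
  rw [Finset.sum_eq_single a]
  · rw [show m - a = b by omega]
  · intro c _ hc
    by_cases hc' : c < a
    · rw [hf c hc', zero_comp]
    · rw [hg (m - c) (by omega), comp_zero]
  · intro h
    exact absurd (Finset.mem_insert_self _ _) h

/-- The lowest part of a tensor product. -/
lemma w_tensor_of_ge [MonoidalPreadditive C] {a b m : ℤ} {f : X ⟶ Y} {g : X' ⟶ Y'}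
    (hf : Pk.Ge a f) (hg : Pk.Ge b g) (h : m = a + b) :
    Pk.w m (f ⊗ₘ g) = Pk.w a f ⊗ₘ Pk.w b g := by
  classical
  rw [Pk.w_tensor_sum m f g (insert a (Pk.wts f))
    fun _ h => Finset.mem_insert_of_mem (Pk.mem_wts.2 h)]
  rw [Finset.sum_eq_single a]
  · rw [show m - a = b by omega]
  · intro c _ hc
    by_cases hc' : c < a
    · rw [hf c hc', MonoidalPreadditive.zero_tensor]
    · rw [hg (m - c) (by omega), MonoidalPreadditive.tensor_zero]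
  · intro h
    exact absurd (Finset.mem_insert_self _ _) h

/-! ### The weight zero subcategory `C0` -/

lemma w_zero_C0 {f : X ⟶ Y} (hf : f ∈ Pk.C0.S X Y) : Pk.w 0 f = f := Pk.C0_w hf

lemma w_C0_of_ne {f : X ⟶ Y} (hf : f ∈ Pk.C0.S X Y) {m : ℤ} (hm : m ≠ 0) : Pk.w m f = 0 := by
  rw [← Pk.C0_w hf, Pk.w_ne hm]

lemma ge_C0 {f : X ⟶ Y} (hf : f ∈ Pk.C0.S X Y) : Pk.Ge 0 f :=
  fun _ hm => w_C0_of_ne hf (ne_of_lt hm)

@[simp] lemma w_zero_id (X : C) : Pk.w 0 (𝟙 X) = 𝟙 X := Pk.C0_w (Pk.C0.id_mem X)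

lemma ge_id (X : C) : Pk.Ge 0 (𝟙 X) := ge_C0 (Pk.C0.id_mem X)

/-- Composition with a weight zero morphism on the left. -/
lemma w_C0_comp {f : X ⟶ Y} (hf : f ∈ Pk.C0.S X Y) (g : Y ⟶ Z) (m : ℤ) :
    Pk.w m (f ≫ g) = f ≫ Pk.w m g := by
  rw [Pk.w_comp_sum m f g {0} (fun a ha => by
    by_contra hne
    exact ha (w_C0_of_ne hf (by simpa using hne)))]
  rw [Finset.sum_singleton, Pk.C0_w hf, sub_zero]

/-- Composition with a weight zero morphism on the right. -/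
lemma w_comp_C0 (f : X ⟶ Y) {g : Y ⟶ Z} (hg : g ∈ Pk.C0.S Y Z) (m : ℤ) :
    Pk.w m (f ≫ g) = Pk.w m f ≫ g := by
  classical
  rw [Pk.w_comp_sum m f g (insert m (Pk.wts f))
    fun _ h => Finset.mem_insert_of_mem (Pk.mem_wts.2 h)]
  rw [Finset.sum_eq_single m]
  · rw [sub_self, Pk.C0_w hg]
  · intro c _ hc
    rw [w_C0_of_ne hg (by omega), comp_zero]
  · intro h
    exact absurd (Finset.mem_insert_self _ _) h

/-- Whiskering and weights. -/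
lemma w_whiskerLeft [MonoidalPreadditive C] (Z : C) (f : X ⟶ Y) (m : ℤ) :
    Pk.w m (Z ◁ f) = Z ◁ Pk.w m f := by
  rw [← id_tensorHom, ← id_tensorHom, Pk.w_tensor_sum m (𝟙 Z) f {0} (fun a ha => by
    by_contra hne
    exact ha (w_C0_of_ne (Pk.C0.id_mem Z) (by simpa using hne)))]
  rw [Finset.sum_singleton, w_zero_id, sub_zero]

lemma w_whiskerRight [MonoidalPreadditive C] (f : X ⟶ Y) (Z : C) (m : ℤ) :
    Pk.w m (f ▷ Z) = Pk.w m f ▷ Z := by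
  classical
  rw [← tensorHom_id, ← tensorHom_id, Pk.w_tensor_sum m f (𝟙 Z) (insert m (Pk.wts f))
    fun _ h => Finset.mem_insert_of_mem (Pk.mem_wts.2 h)]
  rw [Finset.sum_eq_single m]
  · rw [sub_self, w_zero_id]
  · intro c _ hc
    rw [w_C0_of_ne (Pk.C0.id_mem Z) (by omega), MonoidalPreadditive.tensor_zero]
  · intro h
    exact absurd (Finset.mem_insert_self _ _) h

end Pinch

end Pool.Agent.H75.TT
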