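import Pool.Agent.H75.TT.PinchDefs

/-!
The category attached to a tensor subcategory: same objects, fewer morphisms. It is a preadditive
symmetric monoidal category in which every object has a dual if `dual_mem` holds, and the
inclusion functor is additive, faithful and braided with identity structure maps.
-/

open CategoryTheory CategoryTheory.Limits MonoidalCategory

namespace Pool.Agent.H75.TT

namespace TensorSub

variable {C : Type} [Category.{0} C] [Preadditive C] [MonoidalCategory C] [SymmetricCategory C]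

/-- The category with the same objects as `C` and the morphisms of the tensor subcategory. -/
@[ext]
structure Cat (S : TensorSub C) where
  of : C

variable {S : TensorSub C}

/-- Morphisms of `S.Cat`. -/
@[ext]
structure Hom (X Y : S.Cat) where
  f : X.of ⟶ Y.of
  mem : f ∈ S.S X.of Y.of

instance : Category.{0} S.Cat where
  Hom := Hom
  id _ := ⟨𝟙 _, S.id_mem _⟩
  comp f g := ⟨f.f ≫ g.f, S.comp_mem f.mem g.mem⟩
  id_comp f := Hom.ext (Category.id_comp f.f)
  comp_id f := Hom.ext (Category.comp_id f.f)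
  assoc f g h := Hom.ext (Category.assoc f.f g.f h.f)

variable {X Y Z W : S.Cat}

@[ext]
lemma hom_ext {f g : X ⟶ Y} (h : f.f = g.f) : f = g := Hom.ext h

lemma mem_S (f : X ⟶ Y) : f.f ∈ S.S X.of Y.of := Hom.mem f

@[simp] lemma id_f (X : S.Cat) : (𝟙 X : X ⟶ X).f = 𝟙 X.of := rfl
@[simp, reassoc] lemma comp_f (f : X ⟶ Y) (g : Y ⟶ Z) : (f ≫ g).f = f.f ≫ g.f := rfl

instance : AddCommGroup (X ⟶ Y) where
  add f g := ⟨f.f + g.f, (S.S _ _).add_mem f.mem g.mem⟩
  zero := ⟨0, (S.S _ _).zero_mem⟩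
  neg f := ⟨-f.f, (S.S _ _).neg_mem f.mem⟩
  sub f g := ⟨f.f - g.f, (S.S _ _).sub_mem f.mem g.mem⟩
  nsmul n f := ⟨n • f.f, (S.S _ _).nsmul_mem f.mem n⟩
  zsmul n f := ⟨n • f.f, (S.S _ _).zsmul_mem f.mem n⟩
  add_assoc f g h := Hom.ext (add_assoc f.f g.f h.f)
  zero_add f := Hom.ext (zero_add f.f)
  add_zero f := Hom.ext (add_zero f.f)
  add_comm f g := Hom.ext (add_comm f.f g.f)
  neg_add_cancel f := Hom.ext (neg_add_cancel f.f)
  sub_eq_add_neg f g := Hom.ext (sub_eq_add_neg f.f g.f)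
  nsmul_zero f := Hom.ext (zero_smul ℕ f.f)
  nsmul_succ n f := Hom.ext (succ_nsmul f.f n)
  zsmul_zero' f := Hom.ext (zero_smul ℤ f.f)
  zsmul_succ' n f := Hom.ext (SubNegMonoid.zsmul_succ' n f.f)
  zsmul_neg' n f := Hom.ext (SubNegMonoid.zsmul_neg' n f.f)

@[simp] lemma add_f (f g : X ⟶ Y) : (f + g).f = f.f + g.f := rfl
@[simp] lemma zero_f : (0 : X ⟶ Y).f = 0 := rfl
@[simp] lemma neg_f (f : X ⟶ Y) : (-f).f = - f.f := rfl
@[simp] lemma sub_f (f g : X ⟶ Y) : (f - g).f = f.f - g.f := rfl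
@[simp] lemma nsmul_f (n : ℕ) (f : X ⟶ Y) : (n • f).f = n • f.f := rfl
@[simp] lemma zsmul_f (n : ℤ) (f : X ⟶ Y) : (n • f).f = n • f.f := rfl

instance : Preadditive S.Cat where
  add_comp X Y Z f f' g := hom_ext (Preadditive.add_comp _ _ _ f.f f'.f g.f)
  comp_add X Y Z f g g' := hom_ext (Preadditive.comp_add _ _ _ f.f g.f g'.f)

@[simp]
lemma sum_f {α : Type*} (s : Finset α) (f : α → (X ⟶ Y)) :
    (∑ a ∈ s, f a).f = ∑ a ∈ s, (f a).f := by
  classical
  induction s using Finset.induction_on with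
  | empty => simp
  | insert a s ha ih => rw [Finset.sum_insert ha, Finset.sum_insert ha, add_f, ih]

/-- The inclusion. -/
@[simps]
def incl (S : TensorSub C) : S.Cat ⥤ C where
  obj X := X.of
  map f := f.f

instance : (incl S).Faithful where
  map_injective h := hom_ext h

instance : (incl S).Additive where

/-- Isomorphisms of `S.Cat`. -/
@[simps]
def isoMk (e : X.of ≅ Y.of) (h1 : e.hom ∈ S.S X.of Y.of) (h2 : e.inv ∈ S.S Y.of X.of) :
    X ≅ Y where
  hom := ⟨e.hom, h1⟩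
  inv := ⟨e.inv, h2⟩
  hom_inv_id := hom_ext e.hom_inv_id
  inv_hom_id := hom_ext e.inv_hom_id

lemma whiskerLeft_mem (X : C) {Y Z : C} {f : Y ⟶ Z} (h : f ∈ S.S Y Z) :
    X ◁ f ∈ S.S (X ⊗ Y) (X ⊗ Z) := by
  rw [← MonoidalCategory.id_tensorHom]
  exact S.tensor_mem (S.id_mem _) h

lemma whiskerRight_mem {Y Z : C} {f : Y ⟶ Z} (h : f ∈ S.S Y Z) (X : C) :
    f ▷ X ∈ S.S (Y ⊗ X) (Z ⊗ X) := by
  rw [← MonoidalCategory.tensorHom_id]
  exact S.tensor_mem h (S.id_mem _)

@[simps]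
instance : MonoidalCategoryStruct S.Cat where
  tensorObj X Y := ⟨X.of ⊗ Y.of⟩
  tensorUnit := ⟨𝟙_ C⟩
  tensorHom f g := ⟨f.f ⊗ₘ g.f, S.tensor_mem f.mem g.mem⟩
  whiskerLeft X _ _ f := ⟨X.of ◁ f.f, whiskerLeft_mem _ f.mem⟩
  whiskerRight f X := ⟨f.f ▷ X.of, whiskerRight_mem f.mem _⟩
  associator X Y Z := isoMk (α_ X.of Y.of Z.of) (S.assoc_hom_mem _ _ _) (S.assoc_inv_mem _ _ _)
  leftUnitor X := isoMk (λ_ X.of) (S.left_hom_mem _) (S.left_inv_mem _)
  rightUnitor X := isoMk (ρ_ X.of) (S.right_hom_mem _) (S.right_inv_mem _)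

instance : MonoidalCategory S.Cat where
  tensorHom_def f g := hom_ext (MonoidalCategory.tensorHom_def f.f g.f)
  id_tensorHom_id X Y := hom_ext (MonoidalCategory.id_tensorHom_id X.of Y.of)
  tensorHom_comp_tensorHom f g h k :=
    hom_ext (MonoidalCategory.tensorHom_comp_tensorHom f.f g.f h.f k.f)
  whiskerLeft_id X Y := hom_ext (MonoidalCategory.whiskerLeft_id X.of Y.of)
  id_whiskerRight X Y := hom_ext (MonoidalCategory.id_whiskerRight X.of Y.of)
  associator_naturality f g h := hom_ext (MonoidalCategory.associator_naturality f.f g.f h.f)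
  leftUnitor_naturality f := hom_ext (MonoidalCategory.leftUnitor_naturality f.f)
  rightUnitor_naturality f := hom_ext (MonoidalCategory.rightUnitor_naturality f.f)
  pentagon X Y Z W := hom_ext (MonoidalCategory.pentagon X.of Y.of Z.of W.of)
  triangle X Y := hom_ext (MonoidalCategory.triangle X.of Y.of)

@[simps]
instance : BraidedCategory S.Cat where
  braiding X Y := isoMk (β_ X.of Y.of) (S.braid_hom_mem _ _) (S.braid_inv_mem _ _)
  braiding_naturality_right X _ _ f :=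
    hom_ext (BraidedCategory.braiding_naturality_right X.of f.f)
  braiding_naturality_left f Z :=
    hom_ext (BraidedCategory.braiding_naturality_left f.f Z.of)
  hexagon_forward X Y Z := hom_ext (BraidedCategory.hexagon_forward X.of Y.of Z.of)
  hexagon_reverse X Y Z := hom_ext (BraidedCategory.hexagon_reverse X.of Y.of Z.of)

instance : SymmetricCategory S.Cat where
  symmetry X Y := hom_ext (SymmetricCategory.symmetry X.of Y.of)

instance [MonoidalPreadditive C] : MonoidalPreadditive S.Cat where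
  whiskerLeft_zero := hom_ext (MonoidalPreadditive.whiskerLeft_zero)
  zero_whiskerRight := hom_ext (MonoidalPreadditive.zero_whiskerRight)
  whiskerLeft_add _ _ := hom_ext (MonoidalPreadditive.whiskerLeft_add _ _)
  add_whiskerRight _ _ := hom_ext (MonoidalPreadditive.add_whiskerRight _ _)

/-! ### The inclusion is braided monoidal -/

/-- Core data with identity structure maps. -/
def inclCore (S : TensorSub C) : (incl S).CoreMonoidal where
  εIso := Iso.refl _
  μIso _ _ := Iso.refl _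
  μIso_hom_natural_left f X := by
    change f.f ▷ X.of ≫ 𝟙 _ = 𝟙 _ ≫ f.f ▷ X.of
    rw [Category.comp_id, Category.id_comp]
  μIso_hom_natural_right X f := by
    change X.of ◁ f.f ≫ 𝟙 _ = 𝟙 _ ≫ X.of ◁ f.f
    rw [Category.comp_id, Category.id_comp]
  associativity X Y Z := by
    change 𝟙 (X.of ⊗ Y.of) ▷ Z.of ≫ 𝟙 _ ≫ (α_ X.of Y.of Z.of).hom
      = (α_ X.of Y.of Z.of).hom ≫ X.of ◁ 𝟙 (Y.of ⊗ Z.of) ≫ 𝟙 _
    simp
  left_unitality X := by
    change (λ_ X.of).hom = 𝟙 (𝟙_ C) ▷ X.of ≫ 𝟙 _ ≫ (λ_ X.of).hom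
    simp
  right_unitality X := by
    change (ρ_ X.of).hom = X.of ◁ 𝟙 (𝟙_ C) ≫ 𝟙 _ ≫ (ρ_ X.of).hom
    simp

instance : (incl S).Monoidal := (inclCore S).toMonoidal

lemma incl_ε : Functor.LaxMonoidal.ε (incl S) = 𝟙 (𝟙_ C) := rfl
lemma incl_μ (X Y : S.Cat) : Functor.LaxMonoidal.μ (incl S) X Y = 𝟙 (X.of ⊗ Y.of) := rfl
lemma incl_η : Functor.OplaxMonoidal.η (incl S) = 𝟙 (𝟙_ C) := rfl
lemma incl_δ (X Y : S.Cat) : Functor.OplaxMonoidal.δ (incl S) X Y = 𝟙 (X.of ⊗ Y.of) := rfl

instance : (incl S).Braided where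
  braided X Y := by
    change 𝟙 (X.of ⊗ Y.of) ≫ (β_ X.of Y.of).hom = (β_ X.of Y.of).hom ≫ 𝟙 (Y.of ⊗ X.of)
    rw [Category.comp_id, Category.id_comp]

/-! ### Duals -/

/-- An exact pairing whose maps are in the subcategory gives an exact pairing in `S.Cat`. -/
@[reducible]
def exactPairing {X Y : C} (e : ExactPairing X Y)
    (h1 : e.coevaluation' ∈ S.S (𝟙_ C) (X ⊗ Y)) (h2 : e.evaluation' ∈ S.S (Y ⊗ X) (𝟙_ C)) :
    ExactPairing (⟨X⟩ : S.Cat) ⟨Y⟩ where
  coevaluation' := ⟨e.coevaluation', h1⟩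
  evaluation' := ⟨e.evaluation', h2⟩
  coevaluation_evaluation' := hom_ext e.coevaluation_evaluation'
  evaluation_coevaluation' := hom_ext e.evaluation_coevaluation'

lemma nonempty_hasRightDual (X : S.Cat) : Nonempty (HasRightDual X) := by
  obtain ⟨Y, e, h1, h2⟩ := S.dual_mem X.of
  exact ⟨{ rightDual := ⟨Y⟩, exact := exactPairing e h1 h2 }⟩

/-- An isomorphism in `C` with both maps in the subcategory. -/
lemma isIso_of_mem {X Y : S.Cat} (f : X ⟶ Y) (g : Y.of ⟶ X.of) (hg : g ∈ S.S _ _)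
    (h1 : f.f ≫ g = 𝟙 _) (h2 : g ≫ f.f = 𝟙 _) : IsIso f :=
  ⟨⟨g, hg⟩, hom_ext h1, hom_ext h2⟩

/-! ### Linear structure -/

/-- If the Hom subgroups are submodules, then `S.Cat` is linear. -/
@[reducible]
def linear (k : Type) [Semiring k] [Linear k C]
    (h : ∀ {X Y : C} (a : k) {f : X ⟶ Y}, f ∈ S.S X Y → a • f ∈ S.S X Y) :
    Linear k S.Cat where
  homModule _ _ :=
    { smul := fun a f => ⟨a • f.f, h a f.mem⟩
      one_smul := fun f => hom_ext (one_smul k f.f)
      mul_smul := fun a b f => hom_ext (mul_smul a b f.f)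
      smul_zero := fun a => hom_ext (smul_zero a)
      smul_add := fun a f g => hom_ext (smul_add a f.f g.f)
      add_smul := fun a b f => hom_ext (add_smul a b f.f)
      zero_smul := fun f => hom_ext (zero_smul k f.f) }
  smul_comp _ _ _ a f g := hom_ext (Linear.smul_comp _ _ _ a f.f g.f)
  comp_smul _ _ _ f a g := hom_ext (Linear.comp_smul _ _ _ f.f a g.f)

end TensorSub

end Pool.Agent.H75.TT
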